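import Pool.Agent.BEL.StmtsE
import Pool.Agent.Helper39_BEL.GRQ
import Pool.Agent.Helper68_BEL.FLE
import Pool.Agent.Helper89_BEL.COO

/-!
# Squad BEW (MP_be01ff_an): the `C^1` regularity of a flow, abstract form
-/

set_option autoImplicit false

namespace Pool.Agent.BEW.H29

open Set Filter Topology MeasureTheory
open scoped InnerProductSpace ENNReal NNReal
open Pool.Agent.BEL

noncomputable section

/-- Gronwall inequality with an integrable error. -/
theorem gron {G : Type} [NormedAddCommGroup G] [NormedSpace ℝ G] [CompleteSpace G] (D D' : ℝ → G)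
    (ρ : ℝ → ℝ) (K t : ℝ) (hK : 0 ≤ K) (ht : 0 ≤ t) (hD : ∀ s, HasDerivAt D (D' s) s)
    (hD' : Continuous D') (hρ : Continuous ρ) (hρ0 : ∀ s, 0 ≤ ρ s)
    (h : ∀ s, ‖D' s‖ ≤ K * ‖D s‖ + ρ s) :
    ‖D t‖ ≤ (‖D 0‖ + ∫ s in (0 : ℝ)..t, ρ s) * Real.exp (K * t) := by
  have hDc : Continuous D := continuous_iff_continuousAt.2 fun s => (hD s).continuousAt
  have hf : Continuous fun s => K * ‖D s‖ + ρ s := by fun_prop
  obtain ⟨φ, hφ⟩ : ∃ φ : ℝ → ℝ, ∀ s, φ s = ‖D 0‖ + ∫ r in (0 : ℝ)..s, (K * ‖D r‖ + ρ r) :=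
    ⟨_, fun _ => rfl⟩
  have hφd : ∀ s, HasDerivAt φ (K * ‖D s‖ + ρ s) s := by
    intro s
    have h1 : φ = fun s => ‖D 0‖ + ∫ r in (0 : ℝ)..s, (K * ‖D r‖ + ρ r) := funext hφ
    rw [h1]
    exact (hf.integral_hasStrictDerivAt 0 s).hasDerivAt.const_add _
  have hle : ∀ s, 0 ≤ s → ‖D s‖ ≤ φ s := by
    intro s hs
    have h1 : ∫ r in (0 : ℝ)..s, D' r = D s - D 0 :=
      intervalIntegral.integral_eq_sub_of_hasDerivAt (fun r _ => hD r)
        (hD'.intervalIntegrable _ _)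
    have h2 : ‖D s - D 0‖ ≤ ∫ r in (0 : ℝ)..s, (K * ‖D r‖ + ρ r) := by
      rw [← h1]
      exact intervalIntegral.norm_integral_le_of_norm_le hs
        (Eventually.of_forall fun r _ => h r) (hf.intervalIntegrable _ _)
    have h3 : ‖D s‖ ≤ ‖D 0‖ + ‖D s - D 0‖ := by
      have := norm_add_le (D 0) (D s - D 0)
      rwa [add_sub_cancel] at this
    rw [hφ]
    linarith
  obtain ⟨ψ, hψ⟩ : ∃ ψ : ℝ → ℝ, ∀ s, ψ s = Real.exp (-(K * s)) * φ s - ∫ r in (0 : ℝ)..s, ρ r :=
    ⟨_, fun _ => rfl⟩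
  have hψd : ∀ s, HasDerivAt ψ (Real.exp (-(K * s)) * (-K) * φ s +
      Real.exp (-(K * s)) * (K * ‖D s‖ + ρ s) - ρ s) s := by
    intro s
    have h1 : ψ = fun s => Real.exp (-(K * s)) * φ s - ∫ r in (0 : ℝ)..s, ρ r := funext hψ
    rw [h1]
    have h2 : HasDerivAt (fun s : ℝ => -(K * s)) (-K) s := by
      have := ((hasDerivAt_id s).const_mul K).neg
      simp only [id, mul_one] at this
      exact this
    exact (h2.exp.mul (hφd s)).sub (hρ.integral_hasStrictDerivAt 0 s).hasDerivAt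
  have hanti : AntitoneOn ψ (Icc 0 t) := by
    refine antitoneOn_of_deriv_nonpos (convex_Icc 0 t)
      (fun s _ => (hψd s).continuousAt.continuousWithinAt)
      (fun s _ => (hψd s).differentiableAt.differentiableWithinAt) fun s hs => ?_
    rw [interior_Icc] at hs
    rw [(hψd s).deriv]
    have h1 := hle s hs.1.le
    have h2 : Real.exp (-(K * s)) ≤ 1 := by
      rw [Real.exp_le_one_iff]
      have := mul_nonneg hK hs.1.le
      linarith
    have h3 := Real.exp_pos (-(K * s))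
    have h4 := hρ0 s
    have h5 : Real.exp (-(K * s)) * (-K) * φ s + Real.exp (-(K * s)) * (K * ‖D s‖ + ρ s) - ρ s =
        Real.exp (-(K * s)) * K * (‖D s‖ - φ s) - (1 - Real.exp (-(K * s))) * ρ s := by ring
    rw [h5]
    have h6 : Real.exp (-(K * s)) * K * (‖D s‖ - φ s) ≤ 0 :=
      mul_nonpos_of_nonneg_of_nonpos (mul_nonneg h3.le hK) (by linarith)
    have h7 : 0 ≤ (1 - Real.exp (-(K * s))) * ρ s := mul_nonneg (by linarith) h4
    linarith
  have h1 := hanti (left_mem_Icc.2 ht) (right_mem_Icc.2 ht) ht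
  have h2 : ψ 0 = ‖D 0‖ := by
    rw [hψ, hφ, intervalIntegral.integral_same, intervalIntegral.integral_same, mul_zero,
      neg_zero, Real.exp_zero]
    ring
  rw [h2, hψ] at h1
  have h3 := hle t ht
  have h4 : Real.exp (-(K * t)) * Real.exp (K * t) = 1 := by
    rw [← Real.exp_add, neg_add_cancel, Real.exp_zero]
  have h5 := Real.exp_pos (K * t)
  calc ‖D t‖ ≤ φ t := h3
    _ = (Real.exp (-(K * t)) * φ t) * Real.exp (K * t) := by
        rw [mul_right_comm, h4, one_mul]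
    _ ≤ (‖D 0‖ + ∫ s in (0 : ℝ)..t, ρ s) * Real.exp (K * t) :=
        mul_le_mul_of_nonneg_right (by linarith) h5.le

theorem scal_deriv {G : Type} [NormedAddCommGroup G] [NormedSpace ℝ G] (f : ℝ → G) (f' : G)
    (σ s : ℝ) (hf : HasDerivAt f f' (σ * s)) : HasDerivAt (fun s => f (σ * s)) (σ • f') s := by
  have h2 : HasDerivAt (fun s : ℝ => σ * s) σ s := by
    have := (hasDerivAt_id s).const_mul σ
    simp only [id, mul_one] at this
    exact this
  exact HasDerivAt.scomp s hf h2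

theorem shift_deriv {G : Type} [NormedAddCommGroup G] [NormedSpace ℝ G] (f : ℝ → G) (f' : G)
    (t h : ℝ) (hf : HasDerivAt f f' (t + h)) : HasDerivAt (fun t => f (t + h)) f' t :=
  hf.comp_add_const t h

theorem clm_deriv {G : Type} [NormedAddCommGroup G] [NormedSpace ℝ G] (L : G →L[ℝ] G) (f : ℝ → G)
    (f' : G) (t : ℝ) (hf : HasDerivAt f f' t) : HasDerivAt (fun t => L (f t)) (L f') t :=
  L.hasFDerivAt.comp_hasDerivAt t hf

theorem quot_deriv {G : Type} [NormedAddCommGroup G] [NormedSpace ℝ G] (f g : ℝ → G)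
    (f' g' : G) (t r : ℝ) (hf : HasDerivAt f f' t) (hg : HasDerivAt g g' t) :
    HasDerivAt (fun t => r • (f t - g t)) (r • (f' - g')) t :=
  (hf.sub hg).const_smul r

theorem sub_deriv {G : Type} [NormedAddCommGroup G] [NormedSpace ℝ G] (f g : ℝ → G)
    (f' g' : G) (t : ℝ) (hf : HasDerivAt f f' t) (hg : HasDerivAt g g' t) :
    HasDerivAt (fun t => f t - g t) (f' - g') t :=
  hf.sub hg

/-- The abstract form of FRC. -/
theorem core {G H : Type} [NormedAddCommGroup G] [NormedSpace ℝ G] [CompleteSpace G]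
    [NormedAddCommGroup H] [NormedSpace ℝ H] (W : ℝ → G →L[ℝ] G) (P : G →L[ℝ] H) (J : H →L[ℝ] G)
    (q1 : ∀ z, W 0 z = z) (q2 : ∀ (s t : ℝ) (z : G), W (s + t) z = W s (W t z))
    (q3 : ∀ (t : ℝ) (z : G), ‖W t z‖ = ‖z‖)
    (q6 : ∀ Z : ℝ → G, Continuous Z → Continuous fun t => W t (Z t))
    (q8 : ∀ h : H, ‖J h‖ = ‖h‖) (q9 : ∀ z : G, ‖P z‖ ≤ ‖z‖)
    (V A : G) (hA : HasDerivAt (fun t => W t V) A 0) (F : H → H) (K : ℝ) (hK : 0 ≤ K)
    (hF : Continuous F) (Z : ℝ → G) (hZ0 : Z 0 = V)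
    (hZ : ∀ t, HasDerivAt Z (-(W (-t) (J (F (P (W t (Z t))))))) t)
    (M : ℝ → ℝ → H → H) (N : ℝ → H → H)
    (m1 : ∀ h t, F (P (W (t + h) (Z (t + h)))) - F (P (W t (Z t))) =
      M h t (P (W (t + h) (Z (t + h))) - P (W t (Z t))))
    (m2 : ∀ h t y, ‖M h t y‖ ≤ K * ‖y‖) (m3 : ∀ h t y z, M h t (y - z) = M h t y - M h t z)
    (m4 : ∀ h t (r : ℝ) y, M h t (r • y) = r • M h t y)
    (m5 : ∀ t y, Tendsto (fun h => M h t y) (𝓝 0) (𝓝 (N t y)))
    (m6 : ∀ y : ℝ → H, Continuous y → Continuous fun t => N t (y t))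
    (Y : ℝ → G) (hY0 : Y 0 = -(J (F (P V))) + A)
    (hY : ∀ t, HasDerivAt Y (-(W (-t) (J (N t (P (W t (Y t))))))) t) :
    (Continuous fun t => W t (Y t)) ∧ ∀ t, HasDerivAt (fun t => W t (Z t)) (W t (Y t)) t := by
  have hZc : Continuous Z := continuous_iff_continuousAt.2 fun t => (hZ t).continuousAt
  have hYc : Continuous Y := continuous_iff_continuousAt.2 fun t => (hY t).continuousAt
  have hU : Continuous fun t => W t (Z t) := q6 Z hZc
  have hYW : Continuous fun t => W t (Y t) := q6 Y hYc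
  refine ⟨hYW, ?_⟩
  -- `W (-t) (X t)` is continuous
  have q7 : ∀ X : ℝ → G, Continuous X → Continuous fun t => W (-t) (X t) := by
    intro X hX
    have h1 := q6 (fun t => X (-t)) (hX.comp continuous_neg)
    have h2 := h1.comp continuous_neg
    have h3 : ((fun t => W t (X (-t))) ∘ fun t : ℝ => -t) = fun t => W (-t) (X t) := by
      funext t
      simp only [Function.comp_apply, neg_neg]
    rw [h3] at h2
    exact h2
  have hinj : Continuous J := J.continuous
  have hP2 : Continuous P := P.continuous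
  obtain ⟨Z', hZ'⟩ : ∃ Z' : ℝ → G, ∀ t, Z' t = -(W (-t) (J (F (P (W t (Z t)))))) :=
    ⟨_, fun _ => rfl⟩
  obtain ⟨Y', hY'⟩ : ∃ Y' : ℝ → G, ∀ t, Y' t = -(W (-t) (J (N t (P (W t (Y t)))))) :=
    ⟨_, fun _ => rfl⟩
  have hZd : ∀ t, HasDerivAt Z (Z' t) t := fun t => by rw [hZ']; exact hZ t
  have hYd : ∀ t, HasDerivAt Y (Y' t) t := fun t => by rw [hY']; exact hY t
  have hZ'c : Continuous Z' := by
    have h1 : Z' = fun t => -(W (-t) (J (F (P (W t (Z t)))))) := funext hZ'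
    rw [h1]
    exact (q7 _ (hinj.comp (hF.comp (hP2.comp hU)))).neg
  have hY'c : Continuous Y' := by
    have h1 : Y' = fun t => -(W (-t) (J (N t (P (W t (Y t)))))) := funext hY'
    rw [h1]
    exact (q7 _ (hinj.comp (m6 _ (hP2.comp hYW)))).neg
  -- the difference quotients
  obtain ⟨E, hE⟩ : ∃ E : ℝ → ℝ → G, ∀ h t, E h t = h⁻¹ • (W h (Z (t + h)) - Z t) :=
    ⟨_, fun _ _ => rfl⟩
  have hWE : ∀ h t, W t (E h t) = h⁻¹ • (W (t + h) (Z (t + h)) - W t (Z t)) := by
    intro h t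
    rw [hE, map_smul, map_sub, ← q2]
  have hEd : ∀ h t, HasDerivAt (E h) (h⁻¹ • (W h (Z' (t + h)) - Z' t)) t := by
    intro h t
    have h1 : E h = fun t => h⁻¹ • (W h (Z (t + h)) - Z t) := funext (hE h)
    rw [h1]
    have h2 : HasDerivAt (fun t => Z (t + h)) (Z' (t + h)) t := shift_deriv Z _ t h (hZd (t + h))
    have h3 : HasDerivAt (fun t => W h (Z (t + h))) (W h (Z' (t + h))) t :=
      clm_deriv (W h) _ _ t h2
    exact quot_deriv _ Z _ _ t h⁻¹ h3 (hZd t)
  have hEe : ∀ h t, h⁻¹ • (W h (Z' (t + h)) - Z' t) =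
      -(W (-t) (J (M h t (P (W t (E h t)))))) := by
    intro h t
    have h1 : W h (Z' (t + h)) = -(W (-t) (J (F (P (W (t + h) (Z (t + h))))))) := by
      rw [hZ', map_neg, ← q2]
      have : h + -(t + h) = -t := by ring
      rw [this]
    have h2 : M h t (P (W t (E h t))) =
        h⁻¹ • (F (P (W (t + h) (Z (t + h)))) - F (P (W t (Z t)))) := by
      rw [hWE, map_smul, map_sub, m4, ← m1]
    rw [h1, h2, hZ', map_smul, map_smul, map_sub, map_sub, ← smul_neg]
    congr 1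
    abel
  -- the limit at `0`
  have hlim0 : Tendsto (fun h => E h 0) (𝓝[≠] 0) (𝓝 (Y 0)) := by
    have hz0 : Z' 0 = -(J (F (P V))) := by
      rw [hZ', neg_zero, q1, q1, hZ0]
    have hd : Continuous (dslope Z 0) := by
      rw [← continuousOn_univ, continuousOn_dslope Filter.univ_mem]
      exact ⟨hZc.continuousOn, (hZd 0).differentiableAt⟩
    have h1 : Tendsto (fun h => W h (dslope Z 0 h)) (𝓝[≠] 0) (𝓝 (Z' 0)) := by
      have h2 := ((q6 _ hd).tendsto 0).mono_left (nhdsWithin_le_nhds (s := {(0 : ℝ)}ᶜ))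
      rw [q1, dslope_same, (hZd 0).deriv] at h2
      exact h2
    have h2 : Tendsto (fun h : ℝ => h⁻¹ • (W (0 + h) V - W 0 V)) (𝓝[≠] 0) (𝓝 A) :=
      hasDerivAt_iff_tendsto_slope_zero.1 hA
    have h3 := h1.add h2
    rw [hz0, ← hY0] at h3
    refine h3.congr' ?_
    filter_upwards [self_mem_nhdsWithin] with h hh
    have hh0 : h ≠ 0 := hh
    rw [dslope_of_ne _ hh0, slope_def_module, hE, sub_zero, map_smul, ← smul_add, zero_add, q1,
      hZ0, map_sub]
    congr 1
    abel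
  -- convergence
  have key : ∀ σ T : ℝ, |σ| = 1 → 0 ≤ T → Tendsto (fun h => E h (σ * T)) (𝓝[≠] 0)
      (𝓝 (Y (σ * T))) := by
    intro σ T hσ hT
    obtain ⟨y, hy⟩ : ∃ y : ℝ → H, ∀ t, y t = P (W t (Y t)) := ⟨_, fun _ => rfl⟩
    have hyc : Continuous y := by
      have h1 : y = fun t => P (W t (Y t)) := funext hy
      rw [h1]
      exact hP2.comp hYW
    obtain ⟨D, hD⟩ : ∃ D : ℝ → ℝ → G, ∀ h s, D h s = E h (σ * s) - Y (σ * s) :=
      ⟨_, fun _ _ => rfl⟩
    obtain ⟨D', hD'⟩ : ∃ D' : ℝ → ℝ → G, ∀ h s, D' h s =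
        σ • (h⁻¹ • (W h (Z' (σ * s + h)) - Z' (σ * s)) - Y' (σ * s)) := ⟨_, fun _ _ => rfl⟩
    have hDd : ∀ h s, HasDerivAt (D h) (D' h s) s := by
      intro h s
      have h1 : D h = fun s => (fun t => E h t - Y t) (σ * s) := funext (hD h)
      rw [h1, hD']
      exact scal_deriv (fun t => E h t - Y t) _ σ s
        (sub_deriv (E h) Y _ _ (σ * s) (hEd h (σ * s)) (hYd (σ * s)))
    have hD'c : ∀ h, Continuous (D' h) := by
      intro h
      have h1 : D' h = fun s => σ • (h⁻¹ • (W h (Z' (σ * s + h)) - Z' (σ * s)) - Y' (σ * s)) :=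
        funext (hD' h)
      rw [h1]
      have h2 : Continuous fun s : ℝ => σ * s := by fun_prop
      have h3 : Continuous fun s : ℝ => σ * s + h := by fun_prop
      have h4 : Continuous (W h : G → G) := (W h).continuous
      exact (((((h4.comp (hZ'c.comp h3)).sub (hZ'c.comp h2)).const_smul h⁻¹).sub
        (hY'c.comp h2)).const_smul σ)
    -- norms
    have hn : ∀ h s, ‖D' h s‖ ≤ K * ‖D h s‖ + ‖M h (σ * s) (y (σ * s)) - N (σ * s) (y (σ * s))‖ := by
      intro h s
      rw [hD', norm_smul, Real.norm_eq_abs, hσ, one_mul, hEe, hY']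
      have h1 : -(W (-(σ * s)) (J (M h (σ * s) (P (W (σ * s) (E h (σ * s))))))) -
          -(W (-(σ * s)) (J (N (σ * s) (P (W (σ * s) (Y (σ * s))))))) =
          -(W (-(σ * s)) (J (M h (σ * s) (P (W (σ * s) (E h (σ * s)))) -
            N (σ * s) (y (σ * s))))) := by
        rw [map_sub, map_sub, hy]
        abel
      rw [h1, norm_neg, q3, q8]
      have h2 : M h (σ * s) (P (W (σ * s) (E h (σ * s)))) - N (σ * s) (y (σ * s)) =
          M h (σ * s) (P (W (σ * s) (D h s))) +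
            (M h (σ * s) (y (σ * s)) - N (σ * s) (y (σ * s))) := by
        rw [hD, map_sub, map_sub, m3, ← hy]
        abel
      rw [h2]
      refine (norm_add_le _ _).trans (add_le_add ?_ le_rfl)
      refine (m2 _ _ _).trans (mul_le_mul_of_nonneg_left ?_ hK)
      exact (q9 _).trans (le_of_eq (q3 _ _))
    have hN : ∀ t z, ‖N t z‖ ≤ K * ‖z‖ := fun t z =>
      le_of_tendsto (m5 t z).norm (Eventually.of_forall fun h => m2 h t z)
    obtain ⟨ρ, hρ⟩ : ∃ ρ : ℝ → ℝ → ℝ, ∀ h s, ρ h s = max 0 (‖D' h s‖ - K * ‖D h s‖) :=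
      ⟨_, fun _ _ => rfl⟩
    have hDc : ∀ h, Continuous (D h) := fun h =>
      continuous_iff_continuousAt.2 fun s => (hDd h s).continuousAt
    have hρc : ∀ h, Continuous (ρ h) := by
      intro h
      have h1 : ρ h = fun s => max 0 (‖D' h s‖ - K * ‖D h s‖) := funext (hρ h)
      rw [h1]
      have h2 := hDc h
      have h3 := hD'c h
      fun_prop
    have hρ0 : ∀ h s, 0 ≤ ρ h s := fun h s => by rw [hρ]; exact le_max_left _ _
    have hρl : ∀ h s, ρ h s ≤ ‖M h (σ * s) (y (σ * s)) - N (σ * s) (y (σ * s))‖ := by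
      intro h s
      rw [hρ]
      refine max_le (norm_nonneg _) ?_
      have := hn h s
      linarith
    have hρb : ∀ h s, ρ h s ≤ 2 * K * ‖y (σ * s)‖ := by
      intro h s
      refine (hρl h s).trans ((norm_sub_le _ _).trans ?_)
      have h1 := m2 h (σ * s) (y (σ * s))
      have h2 := hN (σ * s) (y (σ * s))
      linarith
    have hg : ∀ h, ‖D h T‖ ≤ (‖D h 0‖ + ∫ s in (0 : ℝ)..T, ρ h s) * Real.exp (K * T) := by
      intro h
      refine gron (D h) (D' h) (ρ h) K T hK hT (hDd h) (hD'c h) (hρc h) (hρ0 h) fun s => ?_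
      have : ‖D' h s‖ - K * ‖D h s‖ ≤ ρ h s := by rw [hρ]; exact le_max_right _ _
      linarith
    have hi : Tendsto (fun h => ∫ s in (0 : ℝ)..T, ρ h s) (𝓝[≠] 0) (𝓝 0) := by
      have h1 : Tendsto (fun h => ∫ s in (0 : ℝ)..T, ρ h s) (𝓝[≠] 0)
          (𝓝 (∫ s in (0 : ℝ)..T, (0 : ℝ))) := by
        refine intervalIntegral.tendsto_integral_filter_of_dominated_convergence
          (fun s => 2 * K * ‖y (σ * s)‖) ?_ ?_ ?_ ?_
        · exact Eventually.of_forall fun h => (hρc h).aestronglyMeasurable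
        · refine Eventually.of_forall fun h => Eventually.of_forall fun s _ => ?_
          rw [Real.norm_eq_abs, abs_of_nonneg (hρ0 h s)]
          exact hρb h s
        · have h2 : Continuous fun s : ℝ => σ * s := by fun_prop
          have h3 := hyc.comp h2
          have h4 : Continuous fun s : ℝ => 2 * K * ‖y (σ * s)‖ :=
            continuous_const.mul h3.norm
          exact h4.intervalIntegrable _ _
        · refine Eventually.of_forall fun s _ => ?_
          have h2 : Tendsto (fun h => ‖M h (σ * s) (y (σ * s)) - N (σ * s) (y (σ * s))‖)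
              (𝓝[≠] 0) (𝓝 0) := by
            have h3 := ((m5 (σ * s) (y (σ * s))).sub_const (N (σ * s) (y (σ * s)))).norm
            rw [sub_self, norm_zero] at h3
            exact h3.mono_left nhdsWithin_le_nhds
          exact squeeze_zero (fun h => hρ0 h s) (fun h => hρl h s) h2
      rwa [intervalIntegral.integral_zero] at h1
    have h0 : Tendsto (fun h => ‖D h 0‖) (𝓝[≠] 0) (𝓝 0) := by
      have h1 := (hlim0.sub_const (Y 0)).norm
      rw [sub_self, norm_zero] at h1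
      refine h1.congr fun h => ?_
      rw [hD, mul_zero]
    have h1 : Tendsto (fun h => ‖D h T‖) (𝓝[≠] 0) (𝓝 0) := by
      have h2 := (h0.add hi).mul_const (Real.exp (K * T))
      rw [add_zero, zero_mul] at h2
      exact squeeze_zero (fun h => norm_nonneg _) hg h2
    rw [tendsto_iff_norm_sub_tendsto_zero]
    refine h1.congr fun h => ?_
    rw [hD]
  have key2 : ∀ t, Tendsto (fun h => E h t) (𝓝[≠] 0) (𝓝 (Y t)) := by
    intro t
    rcases le_total 0 t with ht | ht
    · have h1 := key 1 t abs_one ht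
      rwa [one_mul] at h1
    · have h1 := key (-1) (-t) (by rw [abs_neg, abs_one]) (by linarith)
      rwa [neg_mul_neg, one_mul] at h1
  intro t
  rw [hasDerivAt_iff_tendsto_slope_zero]
  have h1 := ((W t).continuous.tendsto (Y t)).comp (key2 t)
  refine h1.congr fun h => ?_
  rw [Function.comp_apply, hWE]

variable {H : Type} [NormedAddCommGroup H] [InnerProductSpace ℝ H]

/-- `p ↦ (p, 0)`. -/
def J1 : H →L[ℝ] KK H :=
  ((WithLp.prodContinuousLinearEquiv 2 ℝ H H).symm : (H × H) →L[ℝ] KK H).comp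
    (ContinuousLinearMap.inl ℝ H H)

theorem P1_J1 (h : H) : P1 (J1 h) = h := rfl

theorem P2_J1 (h : H) : P2 (J1 h) = 0 := rfl

theorem P1_inj' (h : H) : P1 (inj h) = 0 := rfl

theorem P2_inj' (h : H) : P2 (inj h) = h := rfl

theorem W_inj0 (e : HilbertBasis ℕ ℝ H) {om : ℕ → ℝ} {W : ℝ → KK H →L[ℝ] KK H}
    (hW : Grp e om W) (t : ℝ) (u : H) (h0 : ∀ j : ℕ, j ≠ 0 → ⟪e j, u⟫_ℝ = 0) :
    W t (inj u) = Real.sin (om 0 * t) • J1 u + Real.cos (om 0 * t) • inj u := by
  refine Pool.Agent.BEL.H39.kk_eq e (fun j => ?_) (fun j => ?_)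
  · rw [hW.c1, map_add, map_smul, map_smul, P1_J1, P1_inj', P2_inj', smul_zero, add_zero,
      inner_zero_right, mul_zero, zero_add, inner_smul_right]
    by_cases hj : j = 0
    · subst hj; rfl
    · rw [h0 j hj, mul_zero, mul_zero]
  · rw [hW.c2, map_add, map_smul, map_smul, P2_J1, P1_inj', P2_inj', smul_zero, zero_add,
      inner_zero_right, mul_zero, zero_add, inner_smul_right]
    by_cases hj : j = 0
    · subst hj; rfl
    · rw [h0 j hj, mul_zero, mul_zero]

theorem W_inj (e : HilbertBasis ℕ ℝ H) {om : ℕ → ℝ} {W : ℝ → KK H →L[ℝ] KK H}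
    (hW : Grp e om W) (c t : ℝ) :
    W t (inj (c • e 0)) = Real.sin (om 0 * t) • J1 (c • e 0) +
      Real.cos (om 0 * t) • inj (c • e 0) := by
  refine W_inj0 e hW t _ fun j hj => ?_
  rw [inner_smul_right, e.orthonormal.inner_eq_zero hj, mul_zero]

theorem W_deriv (e : HilbertBasis ℕ ℝ H) {om : ℕ → ℝ} {W : ℝ → KK H →L[ℝ] KK H}
    (hW : Grp e om W) (c : ℝ) :
    HasDerivAt (fun t => W t (inj (c • e 0))) (om 0 • J1 (c • e 0)) 0 := by
  have h1 : (fun t => W t (inj (c • e 0))) = fun t => Real.sin (om 0 * t) • J1 (c • e 0) +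
      Real.cos (om 0 * t) • inj (c • e 0) := funext fun t => W_inj e hW c t
  rw [h1]
  have h2 : HasDerivAt (fun t : ℝ => om 0 * t) (om 0) 0 := by
    have := (hasDerivAt_id (0 : ℝ)).const_mul (om 0)
    simp only [id, mul_one] at this
    exact this
  have h3 := (h2.sin.smul_const (J1 (c • e 0))).add (h2.cos.smul_const (inj (c • e 0)))
  have h4 : (Real.cos (om 0 * 0) * om 0) • J1 (c • e 0) +
      (-Real.sin (om 0 * 0) * om 0) • inj (c • e 0) = om 0 • J1 (c • e 0) := by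
    rw [mul_zero, Real.cos_zero, Real.sin_zero, neg_zero, zero_mul, zero_smul, add_zero, one_mul]
  rw [h4] at h3
  exact h3

end

end Pool.Agent.BEW.H29
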