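import Pool.Agent.BEW.StmtsF
import Pool.Agent.Helper29_BEW.Gron
import Pool.Agent.Helper47_BEL.NEM
import Pool.Agent.Helper92_BEL.MLP

/-!
# Squad BEW (MP_be01ff_an), row FRC: the flow is `C^1` in the energy space
-/

set_option autoImplicit false

namespace Pool.Agent.BEW.H29

open Set Filter Topology MeasureTheory
open scoped InnerProductSpace ENNReal NNReal
open Pool.Agent.BE01 Pool.Agent.BEL Pool.Agent.BEG Pool.Agent.BEH Pool.Agent.BER

noncomputable section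

theorem lip_of {g g' : ℝ → ℝ} {K : ℝ≥0} (hd : ∀ s, HasDerivAt g (g' s) s) (h0 : ∀ s, 0 ≤ g' s)
    (hK : ∀ s, g' s ≤ K) : LipschitzWith K g := by
  refine lipschitzWith_of_nnnorm_deriv_le (fun s => (hd s).differentiableAt) fun s => ?_
  rw [(hd s).deriv, ← NNReal.coe_le_coe, coe_nnnorm, Real.norm_eq_abs, abs_of_nonneg (h0 s)]
  exact hK s

theorem slp_bd {g g' : ℝ → ℝ} {K : ℝ≥0} (hd : ∀ s, HasDerivAt g (g' s) s) (h0 : ∀ s, 0 ≤ g' s)
    (hK : ∀ s, g' s ≤ K) (x y : ℝ) : |slp g g' x y| ≤ K := by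
  unfold slp
  split_ifs with h
  · rw [abs_of_nonneg (h0 x)]; exact hK x
  · rw [abs_div, div_le_iff₀ (abs_pos.2 (sub_ne_zero.2 h))]
    have := (lip_of hd h0 hK).dist_le_mul x y
    rwa [Real.dist_eq, Real.dist_eq] at this

theorem slp_meas {g g' : ℝ → ℝ} (hg : Measurable g) (hg' : Measurable g') {X : Type}
    [MeasurableSpace X] {u v : X → ℝ} (hu : Measurable u) (hv : Measurable v) :
    Measurable fun x => slp g g' (u x) (v x) := by
  unfold slp
  refine Measurable.ite (measurableSet_eq_fun hu hv) (hg'.comp hu) ?_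
  exact ((hg.comp hu).sub (hg.comp hv)).div (hu.sub hv)

theorem frc (slo : SloStmt) (lnf : LnfStmt) : FrcStmt := by
  intro X _ μ _ e om W g g' K c Z hW hd hg' h0 hK hg0 hZ
  have grq := Pool.Agent.BEL.H39.grq
  obtain ⟨q1, q2, q3, -, q5, q6, -, q8⟩ := grq (Lp ℝ 2 μ) ℕ e om W hW
  have hlip := lip_of hd h0 hK
  obtain ⟨n1, n2, n3, -, -, -⟩ := Pool.Agent.BEL.H47.nem X μ g K hlip hg0
  have hZc : Continuous Z := continuous_iff_continuousAt.2 fun t => (hZ.eq t).continuousAt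
  have hv : Continuous fun t => P2 (W t (Z t)) := P2.continuous.comp (q6 Z hZc)
  obtain ⟨v, hvd⟩ : ∃ v : ℝ → Lp ℝ 2 μ, ∀ t, P2 (W t (Z t)) = v t := ⟨_, fun _ => rfl⟩
  have hvc : Continuous v := by
    have h1 : v = fun t => P2 (W t (Z t)) := funext fun t => (hvd t).symm
    rw [h1]; exact hv
  obtain ⟨s1, s2, s3, s4⟩ := slo X μ g g' K v hd hg' h0 hK hg0 hvc
  obtain ⟨Y, hY0, hY⟩ := lnf X μ e om W g g' K v
    (-(inj (nem μ g (P2 (inj (c • e 0))))) + om 0 • J1 (c • e 0)) hW hd hg' h0 hK hg0 hvc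
  have hgm : Measurable g := hlip.continuous.measurable
  have hvm : ∀ t, Measurable (fun x => v t x) := fun t => (Lp.stronglyMeasurable (v t)).measurable
  have hM : ∀ h t, ∃ T : Lp ℝ 2 μ →L[ℝ] Lp ℝ 2 μ, ∀ y,
      T y = ml μ (fun x => slp g g' (v (t + h) x) (v t x)) y := fun h t =>
    (Pool.Agent.BEL.H92.mlp X μ _ K (slp_meas hgm hg'.measurable (hvm _) (hvm _))
      (fun x => slp_bd hd h0 hK _ _)).2.2.2.2.2
  obtain ⟨r1, r2⟩ := core W P2 inj q1 q2 q3 q6 q8 (fun z => Pool.Agent.BEL.H68.norm_P2_le z)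
    (inj (c • e 0)) (om 0 • J1 (c • e 0)) (W_deriv e hW c) (nem μ g) K K.2 n2.continuous Z hZ.z0
    hZ.eq (fun h t y => ml μ (fun x => slp g g' (v (t + h) x) (v t x)) y)
    (fun t y => ml μ (fun x => g' (v t x)) y)
    (fun h t => by rw [hvd, hvd]; exact s1 t h) (fun h t y => s2 t h y)
    (fun h t y z => by
      obtain ⟨T, hT⟩ := hM h t
      simp only [← hT, map_sub])
    (fun h t r y => by
      obtain ⟨T, hT⟩ := hM h t
      simp only [← hT, map_smul])
    s3 s4 Y hY0 hY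
  exact ⟨fun t => W t (Y t), r1, r2⟩

end

end Pool.Agent.BEW.H29
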