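import Pool.Agent.BEW.StmtsF
import Pool.Agent.Helper29_BEW.FRC
import Pool.Agent.Helper33_BEL.GRP
import Pool.Agent.Helper29_BEL.GLP

/-!
# Squad BEW (MP_be01ff_an), row MSO: strong solutions in modes
-/

set_option autoImplicit false

namespace Pool.Agent.BEW.H29

open Set Filter Topology MeasureTheory
open scoped InnerProductSpace ENNReal NNReal
open Pool.Agent.BE01 Pool.Agent.BEL Pool.Agent.BEG Pool.Agent.BEH Pool.Agent.BER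

noncomputable section

theorem bd_lim {X : Type} [MeasurableSpace X] {μ : Measure X} (u : ℕ → Lp ℝ 2 μ) (v : Lp ℝ 2 μ)
    (h : Tendsto u atTop (𝓝 v)) (hb : ∀ᶠ n in atTop, ∀ᵐ x ∂μ, |u n x| ≤ 1) :
    ∀ᵐ x ∂μ, |v x| ≤ 1 := by
  have h1 : TendstoInMeasure μ (fun n => (u n : X → ℝ)) atTop (v : X → ℝ) :=
    tendstoInMeasure_of_tendsto_Lp h
  obtain ⟨ns, hns, h2⟩ := h1.exists_seq_tendsto_ae
  have h3 : ∀ᶠ n in atTop, ∀ᵐ x ∂μ, |u (ns n) x| ≤ 1 := hns.tendsto_atTop.eventually hb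
  obtain ⟨N, hN⟩ := eventually_atTop.1 h3
  have h4 : ∀ᵐ x ∂μ, ∀ n, N ≤ n → |u (ns n) x| ≤ 1 := by
    rw [ae_all_iff]
    intro n
    by_cases hn : N ≤ n
    · filter_upwards [hN n hn] with x hx _
      exact hx
    · exact Eventually.of_forall fun x h => absurd h hn
  filter_upwards [h2, h4] with x hx1 hx2
  exact le_of_tendsto hx1.abs (eventually_atTop.2 ⟨N, hx2⟩)

theorem mso (glx : GlxStmt) (gcn : GcnStmt) (frc : FrcStmt) : MsoStmt := by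
  intro X _ μ _ e bb om al e0 B m0 c C hal hom hons hebb hG
  have grq := Pool.Agent.BEL.H39.grq
  obtain ⟨W, hW⟩ := Pool.Agent.BEL.H33.grp (Lp ℝ 2 μ) ℕ e om
  obtain ⟨q1, q2, q3, -, q5, q6, -, q8⟩ := grq (Lp ℝ 2 μ) ℕ e om W hW
  obtain ⟨g1, g2, g3, g4, -, -, -, g8, -⟩ := Pool.Agent.BEL.H29.glp 1 al one_pos hal
  have hlip := g2 1 zero_le_one
  obtain ⟨Kn, hKn⟩ : ∃ Kn : ℝ≥0, Kn = Real.toNNReal (1 * (al + 1) * 1 ^ al) := ⟨_, rfl⟩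
  rw [← hKn] at hlip
  have hKn' : (Kn : ℝ) = al + 1 := by
    rw [hKn, Real.one_rpow, one_mul, mul_one, Real.coe_toNNReal _ (by linarith)]
  obtain ⟨n1, n2, n3, n4, -, n6⟩ := Pool.Agent.BEL.H47.nem X μ (gl 1 al 1) Kn hlip (g4 1)
  obtain ⟨Z, hZ⟩ := Pool.Agent.BEL.H68.fle grq (Lp ℝ 2 μ) ℕ e om W (nem μ (gl 1 al 1)) Kn
    (inj (e0 • e 0)) hW n2
  have hq0 : ∀ s, 0 ≤ ql 1 al 1 s := fun s => by
    unfold ql
    have := Pool.Agent.BEL.H29.mm_nonneg (al := al) zero_le_one s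
    exact mul_nonneg (by linarith) this
  have hqK : ∀ s, ql 1 al 1 s ≤ Kn := fun s => by
    unfold ql
    have h1 := Pool.Agent.BEL.H29.mm_le hal zero_le_one s
    rw [Real.one_rpow] at h1
    rw [hKn', one_mul]
    calc (al + 1) * mm al 1 s ≤ (al + 1) * 1 := mul_le_mul_of_nonneg_left h1 (by linarith)
      _ = al + 1 := mul_one _
  obtain ⟨Y, hYc, hY⟩ := frc X μ e om W (gl 1 al 1) (ql 1 al 1) Kn e0 Z hW
    (fun s => g1 1 s zero_le_one) (Pool.Agent.BEL.H29.ql_cont hal 1) hq0 hqK (g4 1) hZ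
  have hmon : ∀ x y : Lp ℝ 2 μ, 0 ≤ ⟪nem μ (gl 1 al 1) x - nem μ (gl 1 al 1) y, x - y⟫_ℝ :=
    n6 (g3 1 zero_le_one)
  -- the Galerkin flows
  have hex : ∀ n : ℕ, ∃ (Zn : ℝ → KK (Lp ℝ 2 μ)) (p v : ℕ → ℝ → ℝ), 1 ≤ n →
      IsFl W (fun u => PJ e (Finset.range n) (nem μ (gl 1 al 1) u)) (inj (e0 • e 0)) Zn ∧
      Gal μ bb om n al p v ∧ (∀ k, p k 0 = 0) ∧ v 0 0 = e0 ∧ (∀ k, 1 ≤ k → v k 0 = 0) ∧
      (∀ t, ((P2 (W t (Zn t)) : Lp ℝ 2 μ) : X → ℝ) =ᵐ[μ] vel bb (Finset.range n) v t) ∧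
      ∀ t, ‖P1 (W t (Zn t))‖ ^ 2 + ‖P2 (W t (Zn t))‖ ^ 2 = R2 p v t + F2 n p v t := by
    intro n
    by_cases hn : 1 ≤ n
    · obtain ⟨Zn, p, v, h1, h2, -, -, h5, h6, h7, h8, h9⟩ :=
        glx X μ e bb om W al e0 B m0 n hal hW hons hebb hn
      exact ⟨Zn, p, v, fun _ => ⟨h1, h2, h5, h6, h7, h8, h9⟩⟩
    · exact ⟨fun _ => 0, fun _ _ => 0, fun _ _ => 0, fun h => absurd h hn⟩
  choose Zn p v hZn using hex
  have hcv : ∀ t, 0 ≤ t → Tendsto (fun n => Zn n t) atTop (𝓝 (Z t)) :=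
    gcn (Lp ℝ 2 μ) e om W (nem μ (gl 1 al 1)) Kn e0 Z Zn hW n2 hmon n3 hZ
      (fun n hn => (hZn n hn).1)
  have hcW : ∀ t, 0 ≤ t → Tendsto (fun n => W t (Zn n t)) atTop (𝓝 (W t (Z t))) := fun t ht =>
    ((W t).continuous.tendsto _).comp (hcv t ht)
  have hc1 : ∀ t, 0 ≤ t → Tendsto (fun n => P1 (W t (Zn n t))) atTop (𝓝 (P1 (W t (Z t)))) :=
    fun t ht => (P1.continuous.tendsto _).comp (hcW t ht)
  have hc2 : ∀ t, 0 ≤ t → Tendsto (fun n => P2 (W t (Zn n t))) atTop (𝓝 (P2 (W t (Z t)))) :=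
    fun t ht => (P2.continuous.tendsto _).comp (hcW t ht)
  have hGn : ∀ n, 1 ≤ n → ∀ t, 0 ≤ t → c * (1 + t) ^ (-(2 / al)) ≤ R2 (p n) (v n) t ∧
      R2 (p n) (v n) t + F2 n (p n) (v n) t ≤ C * (1 + t) ^ (-(2 / al)) ∧
      ∀ x, |vel bb (Finset.range n) (v n) t x| ≤ 1 := by
    intro n hn
    obtain ⟨-, h2, h3, h4, h5, -, -⟩ := hZn n hn
    exact hG n (p n) (v n) hn h2 (fun k _ => h3 k) h4 (fun k _ hk => h5 k hk)
  have hbd : ∀ t, 0 ≤ t → ∀ᵐ x ∂μ, |(P2 (W t (Z t)) : Lp ℝ 2 μ) x| ≤ 1 := by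
    intro t ht
    refine bd_lim (fun n => P2 (W t (Zn n t))) _ (hc2 t ht) ?_
    filter_upwards [eventually_ge_atTop 1] with n hn
    obtain ⟨-, -, -, -, -, h6, -⟩ := hZn n hn
    filter_upwards [h6 t] with x hx
    rw [hx]
    exact (hGn n hn t ht).2.2 x
  have hnorm : ∀ t, 0 ≤ t → Tendsto (fun n => R2 (p n) (v n) t + F2 n (p n) (v n) t) atTop
      (𝓝 (‖P1 (W t (Z t))‖ ^ 2 + ‖P2 (W t (Z t))‖ ^ 2)) := by
    intro t ht
    refine (((hc1 t ht).norm.pow 2).add ((hc2 t ht).norm.pow 2)).congr' ?_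
    filter_upwards [eventually_ge_atTop 1] with n hn
    exact (hZn n hn).2.2.2.2.2.2 t
  have hdP : ∀ t, HasDerivAt (fun t => P1 (W t (Z t))) (P1 (Y t)) t := fun t =>
    (P1 : KK (Lp ℝ 2 μ) →L[ℝ] Lp ℝ 2 μ).hasFDerivAt.comp_hasDerivAt t (hY t)
  have hdV : ∀ t, HasDerivAt (fun t => P2 (W t (Z t))) (P2 (Y t)) t := fun t =>
    (P2 : KK (Lp ℝ 2 μ) →L[ℝ] Lp ℝ 2 μ).hasFDerivAt.comp_hasDerivAt t (hY t)
  have hin : ∀ (k : ℕ) (f : ℝ → Lp ℝ 2 μ) (f' : Lp ℝ 2 μ) (t : ℝ), HasDerivAt f f' t →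
      HasDerivAt (fun t => ⟪e k, f t⟫_ℝ) ⟪e k, f'⟫_ℝ t := fun k f f' t hf =>
    (innerSL ℝ (e k)).hasFDerivAt.comp_hasDerivAt t hf
  refine ⟨fun t => P1 (W t (Z t)), fun t => P2 (W t (Z t)), fun t => P1 (Y t),
    fun t => P2 (Y t), ⟨hdP, hdV, P1.continuous.comp hYc, P2.continuous.comp hYc, ?_, ?_, hbd⟩, ?_⟩
  · intro k t
    exact (hin k _ _ t (hdP t)).unique
      (Pool.Agent.BEL.H89.coo (Lp ℝ 2 μ) ℕ e om W _ _ Z k t hW hZ).1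
  · intro k t ht
    have h1 := (hin k _ _ t (hdV t)).unique
      (Pool.Agent.BEL.H89.coo (Lp ℝ 2 μ) ℕ e om W _ _ Z k t hW hZ).2
    rw [h1, real_inner_comm (nem μ (gl 1 al 1) (P2 (W t (Z t)))) (e k), n4, neg_mul]
    congr 1
    refine integral_congr_ae ?_
    filter_upwards [hbd t ht] with x hx
    rw [g8 1 _ hx]
  · intro t ht
    refine ⟨ge_of_tendsto (hnorm t ht) ?_, le_of_tendsto (hnorm t ht) ?_⟩
    · filter_upwards [eventually_ge_atTop 1] with n hn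
      have h1 := (hGn n hn t ht).1
      have h2 : 0 ≤ F2 n (p n) (v n) t :=
        Finset.sum_nonneg fun k _ => add_nonneg (sq_nonneg _) (sq_nonneg _)
      linarith
    · filter_upwards [eventually_ge_atTop 1] with n hn
      exact (hGn n hn t ht).2.1

end

end Pool.Agent.BEW.H29
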